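import Pool.Agent.Helper63.P705.NUM.Goals

/-!
# MP_705522_gt, packet NUM-N16: values of the Gamma function
-/

namespace Pool.Agent.Helper46.P705

open Pool.Agent.Helper63.P705

/-! ### relative errors -/

theorem re_mul {x y x' y' e e' : ℝ} (hy : 0 ≤ y) (hy' : 0 ≤ y') (he' : 0 ≤ e')
    (h : |x - y| ≤ e * y) (h' : |x' - y'| ≤ e' * y') :
    |x * x' - y * y'| ≤ (e + e' + e * e') * (y * y') := by
  have hx' : |x'| ≤ (1 + e') * y' := by
    have h1 := abs_le.mp h'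
    rw [abs_le]
    constructor <;> nlinarith [mul_nonneg he' hy']
  have h1 : x * x' - y * y' = (x - y) * x' + y * (x' - y') := by ring
  rw [h1]
  calc |(x - y) * x' + y * (x' - y')| ≤ |x - y| * |x'| + |y| * |x' - y'| := by
        refine (abs_add_le _ _).trans (le_of_eq ?_)
        rw [abs_mul, abs_mul]
    _ ≤ (e * y) * ((1 + e') * y') + y * (e' * y') := by
        rw [abs_of_nonneg hy]
        have h2 : 0 ≤ e * y := (abs_nonneg _).trans h
        gcongr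
    _ = _ := by ring

theorem re_div {x y x' y' e e' : ℝ} (hy : 0 ≤ y) (hy' : 0 < y') (he : 0 ≤ e) (he' : 0 ≤ e')
    (he2 : e' ≤ 1 / 2) (h : |x - y| ≤ e * y) (h' : |x' - y'| ≤ e' * y') :
    |x / x' - y / y'| ≤ (2 * (e + e')) * (y / y') := by
  have hx' : y' / 2 ≤ x' := by
    have h1 := abs_le.mp h'
    nlinarith
  have hx0 : 0 < x' := by linarith
  have h1 : x / x' - y / y' = ((x - y) * y' - y * (x' - y')) / (x' * y') := by
    field_simp
    ring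
  rw [h1, abs_div, abs_of_pos (mul_pos hx0 hy'), div_le_iff₀ (mul_pos hx0 hy')]
  calc |(x - y) * y' - y * (x' - y')| ≤ |x - y| * y' + y * |x' - y'| := by
        refine (abs_sub _ _).trans (le_of_eq ?_)
        rw [abs_mul, abs_mul, abs_of_pos hy', abs_of_nonneg hy]
    _ ≤ (e * y) * y' + y * (e' * y') := by gcongr
    _ = (2 * (e + e')) * (y / y') * ((y' / 2) * y') := by
        field_simp
    _ ≤ (2 * (e + e')) * (y / y') * (x' * y') := by
        gcongr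

theorem nat_div_err (a b : ℕ) (hb : 0 < b) : |((a / b : ℕ) : ℝ) - (a : ℝ) / b| ≤ 1 := by
  have hb' : (0 : ℝ) < b := by exact_mod_cast hb
  have h1 : ((a / b : ℕ) : ℝ) ≤ (a : ℝ) / b := Nat.cast_div_le
  have h2 : (a : ℝ) / b < ((a / b : ℕ) : ℝ) + 1 := by
    rw [div_lt_iff₀ hb']
    have h3 : a < (a / b + 1) * b := by
      have := Nat.lt_div_mul_add hb (a := a)
      nlinarith
    exact_mod_cast h3
  rw [abs_le]
  constructor <;> linarith

/-! ### the constants -/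

/-- the constants -/
def cc (i : ℕ) : ℕ := if i = 0 then 80 * 2 ^ 100 else fld c80 128 i

theorem cc_check : ∀ i : Fin 13,
    2 ^ 100 ≤ cc (i + 1) ∧
    cc (i + 1) ^ 2 ≤ 2 ^ 100 * cc i + (2 * cc (i + 1) + 2) ∧
    2 ^ 100 * cc i ≤ cc (i + 1) ^ 2 + (2 * cc (i + 1) + 2) := by
  decide +kernel

/-- the exact values -/
noncomputable def X (i : ℕ) : ℝ := (80 : ℝ) ^ ((1 : ℝ) / 2 ^ i)

theorem X_one_le (i : ℕ) : 1 ≤ X i := by
  unfold X
  apply Real.one_le_rpow (by norm_num)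
  positivity

theorem X_sq (i : ℕ) : X (i + 1) ^ 2 = X i := by
  unfold X
  rw [← Real.rpow_natCast, ← Real.rpow_mul (by norm_num)]
  congr 1
  rw [pow_succ]
  push_cast
  field_simp

theorem cc_close : ∀ i : ℕ, i ≤ 13 → |(cc i : ℝ) - 2 ^ 100 * X i| ≤ 3 := by
  intro i
  induction i with
  | zero =>
    intro _
    have h1 : X 0 = 80 := by
      unfold X
      norm_num
    rw [h1]
    have h2 : (cc 0 : ℝ) = 80 * 2 ^ 100 := by
      unfold cc
      norm_num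
    rw [h2]
    norm_num
  | succ i ih =>
    intro hi
    have ih' := ih (by omega)
    obtain ⟨h1, h2, h3⟩ := cc_check ⟨i, by omega⟩
    simp only at h1 h2 h3
    have h1' : (2 : ℝ) ^ 100 ≤ cc (i + 1) := by exact_mod_cast h1
    have h2' : (cc (i + 1) : ℝ) ^ 2 ≤ 2 ^ 100 * cc i + (2 * cc (i + 1) + 2) := by exact_mod_cast h2
    have h3' : (2 : ℝ) ^ 100 * cc i ≤ (cc (i + 1) : ℝ) ^ 2 + (2 * cc (i + 1) + 2) := by
      exact_mod_cast h3
    have hX := X_one_le (i + 1)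
    have hX2 := X_sq i
    have h4 : (2 ^ 100 * X (i + 1)) ^ 2 = 2 ^ 100 * (2 ^ 100 * X i) := by
      rw [mul_pow, hX2]; ring
    set c : ℝ := (cc (i + 1) : ℝ) with hc
    set Y : ℝ := 2 ^ 100 * X (i + 1) with hY
    have hYl : (2 : ℝ) ^ 100 ≤ Y := by
      rw [hY]; nlinarith [pow_pos (show (0:ℝ) < 2 by norm_num) 100]
    have ih2 := abs_le.mp ih'
    have hbig : (1000 : ℝ) ≤ 2 ^ 100 := by norm_num
    -- |c² - Y²| ≤ 2 c + 2 + 3·2^100
    have h5 : c ^ 2 - Y ^ 2 ≤ 2 * c + 2 + 3 * 2 ^ 100 := by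
      rw [h4]; nlinarith
    have h6 : -(2 * c + 2 + 3 * 2 ^ 100) ≤ c ^ 2 - Y ^ 2 := by
      rw [h4]; nlinarith
    rw [abs_le]
    constructor
    · by_contra hcon
      push Not at hcon
      nlinarith
    · by_contra hcon
      push Not at hcon
      nlinarith

theorem cc_rel (i : ℕ) (hi : i ≤ 13) : |(cc i : ℝ) / 2 ^ 100 - X i| ≤ (3 / 2 ^ 100) * X i := by
  have h := cc_close i hi
  have h1 : (cc i : ℝ) / 2 ^ 100 - X i = ((cc i : ℝ) - 2 ^ 100 * X i) / 2 ^ 100 := by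
    field_simp
  rw [h1, abs_div, abs_of_pos (by positivity : (0 : ℝ) < 2 ^ 100)]
  have hX := X_one_le i
  calc |(cc i : ℝ) - 2 ^ 100 * X i| / 2 ^ 100 ≤ 3 / 2 ^ 100 := by gcongr
    _ ≤ (3 / 2 ^ 100) * X i := by
      have : (0 : ℝ) ≤ 3 / 2 ^ 100 := by positivity
      nlinarith

/-! ### powers -/

theorem fld_c80 (i : ℕ) (hi : i < 13) : fld c80 128 (Nat.sub 13 i) = cc (13 - i) := by
  unfold cc
  rw [if_neg (by omega)]
  rfl

theorem powX_close (r : ℕ) (hr : r < 8192) :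
    |(powX r : ℝ) / 2 ^ 100 - (80 : ℝ) ^ ((r : ℝ) / 8192)| ≤
      (13 * (1 / 2 ^ 97)) * (80 : ℝ) ^ ((r : ℝ) / 8192) := by
  have key := lp_ind (n := 13)
    (f := fun i acc => cnd (Nat.beq (Nat.land (Nat.shiftRight r i) 1) 0) acc
      (Nat.shiftRight (Nat.mul acc (fld c80 128 (Nat.sub 13 i))) 100))
    (P := fun i acc => i ≤ 13 ∧ |(acc : ℝ) / 2 ^ 100 - (80 : ℝ) ^ (((r / 2 ^ i * 2 ^ i : ℕ) : ℝ) / 8192)| ≤
      ((13 - i : ℝ) * (1 / 2 ^ 97)) * (80 : ℝ) ^ (((r / 2 ^ i * 2 ^ i : ℕ) : ℝ) / 8192))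
    (a := Nat.shiftLeft 1 100) ?_ ?_
  · have h2 := key.2
    simp only [pow_zero, Nat.div_one, mul_one, Nat.cast_zero, sub_zero] at h2
    exact h2
  · refine ⟨le_refl _, ?_⟩
    have h1 : r / 2 ^ 13 = 0 := Nat.div_eq_of_lt (by norm_num; exact hr)
    have h2 : ((Nat.shiftLeft 1 100 : ℕ) : ℝ) = 2 ^ 100 := by
      have : Nat.shiftLeft 1 100 = 2 ^ 100 := rfl
      rw [this]; norm_num
    rw [h1, h2]
    norm_num
  · intro i acc hi hP
    obtain ⟨_, hP⟩ := hP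
    refine ⟨hi.le, ?_⟩
    have hbit : Nat.land (Nat.shiftRight r i) 1 = r / 2 ^ i % 2 := by
      show (r >>> i) &&& (2 ^ 1 - 1) = _
      rw [Nat.and_two_pow_sub_one_eq_mod, Nat.shiftRight_eq_div_pow]
    have hdiv : r / 2 ^ i = 2 * (r / 2 ^ (i + 1)) + r / 2 ^ i % 2 := by
      rw [pow_succ, ← Nat.div_div_eq_div_mul]
      omega
    set q := r / 2 ^ (i + 1) with hq
    have hcast : ((13 - (i + 1 : ℕ) : ℝ)) = 12 - i := by push_cast; ring
    rw [hcast] at hP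
    have hi' : (i : ℝ) ≤ 12 := by
      have : i ≤ 12 := by omega
      exact_mod_cast this
    simp only [hbit, cnd_eq]
    rcases Nat.mod_two_eq_zero_or_one (r / 2 ^ i) with h0 | h0
    · rw [h0] at hdiv ⊢
      rw [if_pos (by rfl)]
      have he : r / 2 ^ i * 2 ^ i = q * 2 ^ (i + 1) := by
        rw [hdiv, pow_succ]; ring
      rw [he]
      refine hP.trans ?_
      gcongr
      linarith
    · rw [h0] at hdiv ⊢
      rw [if_neg (by decide)]
      rw [fld_c80 i hi]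
      have he : r / 2 ^ i * 2 ^ i = q * 2 ^ (i + 1) + 2 ^ i := by
        rw [hdiv, pow_succ]; ring
      have hX : (80 : ℝ) ^ (((r / 2 ^ i * 2 ^ i : ℕ) : ℝ) / 8192) =
          (80 : ℝ) ^ (((q * 2 ^ (i + 1) : ℕ) : ℝ) / 8192) * X (13 - i) := by
        rw [he]
        unfold X
        rw [← Real.rpow_add (by norm_num)]
        congr 1
        have h3 : (8192 : ℝ) = 2 ^ (13 - i) * 2 ^ i := by
          rw [← pow_add]
          rw [show 13 - i + i = 13 by omega]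
          norm_num
        push_cast
        rw [h3]
        field_simp
      rw [hX]
      have hA1 : 1 ≤ (80 : ℝ) ^ (((q * 2 ^ (i + 1) : ℕ) : ℝ) / 8192) :=
        Real.one_le_rpow (by norm_num) (by positivity)
      set A : ℝ := (80 : ℝ) ^ (((q * 2 ^ (i + 1) : ℕ) : ℝ) / 8192) with hA
      have hY1 := X_one_le (13 - i)
      have hY := cc_rel (13 - i) (by omega)
      set Y : ℝ := X (13 - i) with hYdef
      have hm := re_mul (by linarith : (0 : ℝ) ≤ A) (by linarith : (0 : ℝ) ≤ Y)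
        (by positivity : (0 : ℝ) ≤ 3 / 2 ^ 100) hP hY
      have hfl := nat_div_err (acc * cc (13 - i)) (2 ^ 100) (by positivity)
      have hsh : Nat.shiftRight (Nat.mul acc (cc (13 - i))) 100 = (acc * cc (13 - i)) / 2 ^ 100 :=
        Nat.shiftRight_eq_div_pow _ _
      rw [hsh]
      set z : ℝ := (((acc * cc (13 - i)) / 2 ^ 100 : ℕ) : ℝ) with hz
      have hsplit : z / 2 ^ 100 - A * Y =
          (z - (((acc * cc (13 - i) : ℕ) : ℝ) / ((2 ^ 100 : ℕ) : ℝ))) / 2 ^ 100 +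
          ((acc : ℝ) / 2 ^ 100 * ((cc (13 - i) : ℝ) / 2 ^ 100) - A * Y) := by
        push_cast
        ring
      rw [hsplit]
      have hAY : 1 ≤ A * Y := by nlinarith
      have hb1 : |(z - (((acc * cc (13 - i) : ℕ) : ℝ) / ((2 ^ 100 : ℕ) : ℝ))) / 2 ^ 100| ≤
          (1 / 2 ^ 100) * (A * Y) := by
        rw [abs_div, abs_of_pos (by positivity : (0 : ℝ) < 2 ^ 100)]
        calc _ ≤ 1 / 2 ^ 100 := by gcongr
          _ ≤ (1 / 2 ^ 100) * (A * Y) := by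
            have : (0 : ℝ) ≤ 1 / 2 ^ 100 := by positivity
            nlinarith
      refine (abs_add_le _ _).trans ((add_le_add hb1 hm).trans ?_)
      rw [← add_mul]
      apply mul_le_mul_of_nonneg_right _ (by linarith)
      have hi0 : (0 : ℝ) ≤ i := Nat.cast_nonneg i
      have h4 : (12 - (i : ℝ)) * (1 / 2 ^ 97) * (3 / 2 ^ 100) ≤ 1 / 2 ^ 100 := by
        have : (12 - (i : ℝ)) * (1 / 2 ^ 97) * (3 / 2 ^ 100) ≤ 12 * (1 / 2 ^ 97) * (3 / 2 ^ 100) := by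
          gcongr
          linarith
        refine this.trans ?_
        norm_num
      have h5 : (8 : ℝ) * (1 / 2 ^ 100) = 1 / 2 ^ 97 := by norm_num
      have h6 : (3 : ℝ) / 2 ^ 100 = 3 * (1 / 2 ^ 100) := by ring
      have h7 : (0 : ℝ) ≤ 1 / 2 ^ 100 := by positivity
      nlinarith

/-! ### Gamma -/

theorem gamma_ge {x : ℝ} (hx : 1 / 2 ≤ x) : 1 / 2 ≤ Real.Gamma x := by
  have h2 : ∀ y : ℝ, 2 ≤ y → 1 ≤ Real.Gamma y := by
    intro y hy
    have := Real.Gamma_strictMonoOn_Ici.monotoneOn (Set.mem_Ici.mpr le_rfl) (Set.mem_Ici.mpr hy) hy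
    rwa [Real.Gamma_two] at this
  have h1 : ∀ y : ℝ, 1 ≤ y → y ≤ 2 → 1 / 2 ≤ Real.Gamma y := by
    intro y hy hy2
    have h3 := h2 (y + 1) (by linarith)
    rw [Real.Gamma_add_one (by linarith)] at h3
    have h4 : 0 < Real.Gamma y := Real.Gamma_pos_of_pos (by linarith)
    nlinarith
  by_cases ha : 2 ≤ x
  · linarith [h2 x ha]
  · push Not at ha
    by_cases hb : 1 ≤ x
    · exact h1 x hb ha.le
    · push Not at hb
      have h3 := h1 (x + 1) (by linarith) (by linarith)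
      rw [Real.Gamma_add_one (by linarith)] at h3
      have h4 : 0 < Real.Gamma x := Real.Gamma_pos_of_pos (by linarith)
      nlinarith

theorem gamma_prod (ρ : ℝ) (hρ : 0 ≤ ρ) (k : ℕ) :
    Real.Gamma (1 + ρ + k) = Real.Gamma (1 + ρ) * ∏ i ∈ Finset.range k, ((i : ℝ) + 1 + ρ) := by
  induction k with
  | zero => simp
  | succ k ih =>
    rw [Finset.prod_range_succ, ← mul_assoc, ← ih]
    have h1 : 1 + ρ + ((k + 1 : ℕ) : ℝ) = (1 + ρ + k) + 1 := by push_cast; ring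
    rw [h1, Real.Gamma_add_one (by positivity)]
    ring

theorem n16 : Pool.Agent.Helper63.P705.N16 := by
  intro hN4 hG p hp1 hp2
  obtain ⟨hg, -, hprod, -⟩ := hN4
  set m := p / 8192 with hm
  set r := p % 8192 with hr
  have hpm : p = 8192 * m + r := (Nat.div_add_mod p 8192).symm
  have hr' : r < 8192 := Nat.mod_lt _ (by norm_num)
  have hm7 : m ≤ 7 := by omega
  have hland : Nat.land p 8191 = r := by
    show p &&& (2 ^ 13 - 1) = _
    rw [Nat.and_two_pow_sub_one_eq_mod]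
  have hshift : Nat.shiftRight p 13 = m := Nat.shiftRight_eq_div_pow _ _
  have hgam : gamN p = (cnd (Nat.beq m 0) ((((gent r * powX r) / gent 0) * 2 ^ 13) / r)
      ((((gent r * powX r) / gent 0) * prodP (m - 1) r) / 2 ^ (13 * (m - 1)))) / 2 ^ 40 := by
    unfold gamN
    rw [sq_eq, sq_eq, sq_eq, hland, hshift, (hG r hr').2, (hG 0 (by norm_num)).2]
    rw [show Nat.shiftRight = (fun a b => a >>> b) from rfl]
    simp only [Nat.shiftRight_eq_div_pow]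
    congr 2
    rw [show Nat.shiftLeft = (fun a b => a <<< b) from rfl]
    simp only [Nat.shiftLeft_eq]
    rfl
  -- the value of v
  set ρ : ℝ := (r : ℝ) / 8192 with hρ
  have hρ0 : 0 ≤ ρ := by positivity
  have hGr := (hG r hr').1
  have hG0 := (hG 0 (by norm_num)).1
  have hg1 : 0 < gG (1 + r / 8192) := (hg _ (by positivity)).2
  have hg0 : 0 < gG (1 + (0 : ℕ) / 8192) := (hg _ (by positivity)).2
  have hpow := powX_close r hr'
  have hmul := re_mul (by positivity : (0 : ℝ) ≤ 256 * gG (1 + r / 8192))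
    (by positivity : (0 : ℝ) ≤ (80 : ℝ) ^ ((r : ℝ) / 8192)) (by positivity) hGr hpow
  have hdiv := re_div (by positivity) (by positivity : (0 : ℝ) < 256 * gG (1 + (0 : ℕ) / 8192))
    (by positivity) (by positivity) (by norm_num) hmul hG0
  set V : ℝ := 2 ^ 100 * Real.Gamma (1 + ρ) with hV
  have hGam1 : 1 / 2 ≤ Real.Gamma (1 + ρ) := gamma_ge (by linarith)
  have hVeq : 256 * gG (1 + r / 8192) * (80 : ℝ) ^ ((r : ℝ) / 8192) /
      (256 * gG (1 + (0 : ℕ) / 8192)) = Real.Gamma (1 + ρ) := by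
    unfold gG
    rw [Nat.cast_zero, zero_div, add_zero, Real.Gamma_one, ← hρ]
    have h1 : (80 : ℝ) ^ (-(1 + ρ)) * (80 : ℝ) ^ ρ = (80 : ℝ) ^ (-1 : ℝ) := by
      rw [← Real.rpow_add (by norm_num)]
      congr 1
      ring
    have h2 : 256 * (Real.Gamma (1 + ρ) * (80 : ℝ) ^ (-(1 + ρ)) * Real.exp 80) * (80 : ℝ) ^ ρ =
        256 * Real.Gamma (1 + ρ) * ((80 : ℝ) ^ (-(1 + ρ)) * (80 : ℝ) ^ ρ) * Real.exp 80 := by ring
    rw [h2, h1]
    have h3 : (80 : ℝ) ^ (-1 : ℝ) ≠ 0 := (Real.rpow_pos_of_pos (by norm_num) _).ne'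
    have h4 : Real.exp 80 ≠ 0 := (Real.exp_pos _).ne'
    field_simp
  rw [hVeq] at hdiv
  set v : ℕ := (gent r * powX r) / gent 0 with hv
  have hgent0 : 0 < gent 0 := by
    by_contra hcon
    have h0 : gent 0 = 0 := by omega
    rw [h0] at hG0
    have h1 := abs_le.mp hG0
    norm_num at h1
    nlinarith
  have hverr := nat_div_err (gent r * powX r) (gent 0) hgent0
  rw [← hv] at hverr
  have hvV : |(v : ℝ) - V| ≤ (1 / 2 ^ 90) * V := by
    have h1 : (v : ℝ) - V = ((v : ℝ) - ((gent r * powX r : ℕ) : ℝ) / (gent 0 : ℝ)) +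
        2 ^ 100 * ((gent r : ℝ) * ((powX r : ℝ) / 2 ^ 100) / (gent 0 : ℝ) - Real.Gamma (1 + ρ)) := by
      rw [hV]
      push_cast
      ring
    rw [h1]
    refine (abs_add_le _ _).trans ?_
    rw [abs_mul, abs_of_pos (by positivity : (0 : ℝ) < 2 ^ 100)]
    have h2 : (2 : ℝ) ^ 100 * |(gent r : ℝ) * ((powX r : ℝ) / 2 ^ 100) / (gent 0 : ℝ) - Real.Gamma (1 + ρ)| ≤
        2 ^ 100 * ((2 * (2⁻¹ ^ 106 + 13 * (1 / 2 ^ 97) + 2⁻¹ ^ 106 * (13 * (1 / 2 ^ 97)) + 2⁻¹ ^ 106)) *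
          Real.Gamma (1 + ρ)) := by
      gcongr
    refine (add_le_add hverr h2).trans ?_
    rw [hV]
    have h3 : (1 : ℝ) ≤ (1 / 2 ^ 98) * (2 ^ 100 * Real.Gamma (1 + ρ)) := by
      have : (1 / 2 ^ 98) * (2 ^ 100 * Real.Gamma (1 + ρ)) = 4 * Real.Gamma (1 + ρ) := by ring
      rw [this]; linarith
    have h4 : (2 : ℝ) ^ 100 * ((2 * (2⁻¹ ^ 106 + 13 * (1 / 2 ^ 97) + 2⁻¹ ^ 106 * (13 * (1 / 2 ^ 97)) + 2⁻¹ ^ 106)) *
          Real.Gamma (1 + ρ)) =
        (2 * (2⁻¹ ^ 106 + 13 * (1 / 2 ^ 97) + 2⁻¹ ^ 106 * (13 * (1 / 2 ^ 97)) + 2⁻¹ ^ 106)) *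
          (2 ^ 100 * Real.Gamma (1 + ρ)) := by ring
    rw [h4]
    have h5 : (1 / 2 ^ 98 : ℝ) + (2 * (2⁻¹ ^ 106 + 13 * (1 / 2 ^ 97) + 2⁻¹ ^ 106 * (13 * (1 / 2 ^ 97)) + 2⁻¹ ^ 106))
        ≤ 1 / 2 ^ 90 := by norm_num
    have h6 : 0 ≤ (2 : ℝ) ^ 100 * Real.Gamma (1 + ρ) := by positivity
    calc 1 + (2 * (2⁻¹ ^ 106 + 13 * (1 / 2 ^ 97) + 2⁻¹ ^ 106 * (13 * (1 / 2 ^ 97)) + 2⁻¹ ^ 106)) *
          (2 ^ 100 * Real.Gamma (1 + ρ)) ≤ (1 / 2 ^ 98) * (2 ^ 100 * Real.Gamma (1 + ρ)) +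
          (2 * (2⁻¹ ^ 106 + 13 * (1 / 2 ^ 97) + 2⁻¹ ^ 106 * (13 * (1 / 2 ^ 97)) + 2⁻¹ ^ 106)) *
          (2 ^ 100 * Real.Gamma (1 + ρ)) := by linarith
      _ = ((1 / 2 ^ 98 : ℝ) + (2 * (2⁻¹ ^ 106 + 13 * (1 / 2 ^ 97) + 2⁻¹ ^ 106 * (13 * (1 / 2 ^ 97)) + 2⁻¹ ^ 106))) *
          (2 ^ 100 * Real.Gamma (1 + ρ)) := by ring
      _ ≤ _ := by gcongr
  have hV0 : 0 ≤ V := by positivity
  -- last steps
  have hfin : ∀ w : ℕ, ∀ t : ℝ, 0 ≤ t → |(w : ℝ) - v * t| ≤ 1 → V * t = 2 ^ 100 * Real.Gamma (p / 8192) →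
      |((w / 2 ^ 40 : ℕ) : ℝ) / 2 ^ 60 - Real.Gamma (p / 8192)| ≤ 2⁻¹ ^ 50 * Real.Gamma (p / 8192) := by
    intro w t ht hw hVt
    have h1 := nat_div_err w (2 ^ 40) (by positivity)
    have hp' : (1 : ℝ) / 2 ≤ p / 8192 := by
      rw [div_le_div_iff₀ (by norm_num) (by norm_num)]
      have : (4096 : ℝ) ≤ p := by exact_mod_cast hp1
      linarith
    have hgp := gamma_ge hp'
    set G := Real.Gamma (p / 8192) with hGdef
    have h2 : |(v : ℝ) * t - V * t| ≤ (1 / 2 ^ 90) * (V * t) := by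
      rw [← sub_mul, abs_mul, abs_of_nonneg ht, ← mul_assoc]
      gcongr
    rw [hVt] at h2
    have hsplit : ((w / 2 ^ 40 : ℕ) : ℝ) / 2 ^ 60 - G =
        ((((w / 2 ^ 40 : ℕ) : ℝ) - (w : ℝ) / ((2 ^ 40 : ℕ) : ℝ)) * 2 ^ 40 + ((w : ℝ) - v * t) +
          (v * t - 2 ^ 100 * G)) / 2 ^ 100 := by
      push_cast
      ring
    rw [hsplit, abs_div, abs_of_pos (by positivity : (0 : ℝ) < 2 ^ 100), div_le_iff₀ (by positivity)]
    refine (abs_add_le _ _).trans ((add_le_add_left (abs_add_le _ _) _).trans ?_)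
    rw [abs_mul, abs_of_pos (by positivity : (0 : ℝ) < 2 ^ 40)]
    have h3 : |((w / 2 ^ 40 : ℕ) : ℝ) - (w : ℝ) / ((2 ^ 40 : ℕ) : ℝ)| * 2 ^ 40 ≤ 1 * 2 ^ 40 := by
      gcongr
    have h4 : (2⁻¹ : ℝ) ^ 50 * G * 2 ^ 100 = 2 ^ 50 * G := by
      rw [show (2 : ℝ) ^ 100 = 2 ^ 50 * 2 ^ 50 by norm_num, inv_pow]
      field_simp
    rw [h4]
    have h5 : (1 / 2 ^ 90 : ℝ) * (2 ^ 100 * G) = 2 ^ 10 * G := by
      rw [show (2 : ℝ) ^ 100 = 2 ^ 90 * 2 ^ 10 by norm_num]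
      field_simp
    rw [h5] at h2
    have h6 : (1 : ℝ) * 2 ^ 40 + 1 + 2 ^ 10 * G ≤ 2 ^ 50 * G := by
      norm_num
      linarith
    exact (add_le_add (add_le_add h3 hw) h2).trans h6
  rw [hgam]
  by_cases hm0 : m = 0
  · have hb : Nat.beq m 0 = true := by rw [hm0]; rfl
    rw [cnd_eq, if_pos hb]
    have hpr : p = r := by omega
    have hr0 : 0 < r := by omega
    have hrR : (0 : ℝ) < r := by exact_mod_cast hr0
    apply hfin _ (8192 / r) (by positivity)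
    · have h1 := nat_div_err (v * 2 ^ 13) r hr0
      have h2 : (v : ℝ) * (8192 / r) = ((v * 2 ^ 13 : ℕ) : ℝ) / (r : ℝ) := by
        push_cast
        norm_num
        ring
      rw [h2]
      exact h1
    · have h1 : (p : ℝ) / 8192 = ρ := by rw [hpr]
      rw [h1, hV]
      have hρp : 0 < ρ := by positivity
      have h2 : Real.Gamma (1 + ρ) = ρ * Real.Gamma ρ := by
        rw [add_comm]; exact Real.Gamma_add_one hρp.ne'
      rw [h2, hρ]
      field_simp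
  · have hb : ¬ (Nat.beq m 0 = true) := by
      intro h
      exact hm0 (Nat.eq_of_beq_eq_true h)
    rw [cnd_eq, if_neg hb]
    obtain ⟨k, hk⟩ : ∃ k, m = k + 1 := ⟨m - 1, by omega⟩
    have hk1 : m - 1 = k := by omega
    rw [hk1]
    apply hfin _ ((prodP k r : ℝ) / 2 ^ (13 * k)) (by positivity)
    · have h1 := nat_div_err (v * prodP k r) (2 ^ (13 * k)) (by positivity)
      have h2 : (v : ℝ) * ((prodP k r : ℝ) / 2 ^ (13 * k)) =
          ((v * prodP k r : ℕ) : ℝ) / ((2 ^ (13 * k) : ℕ) : ℝ) := by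
        push_cast
        ring
      rw [h2]
      exact h1
    · have h1 : (p : ℝ) / 8192 = 1 + ρ + k := by
        rw [hpm, hk, hρ]
        push_cast
        ring
      rw [h1, gamma_prod ρ hρ0 k, hV, hprod]
      have h2 : ∏ i ∈ Finset.range k, (8192 * ((i : ℝ) + 1) + r) =
          2 ^ (13 * k) * ∏ i ∈ Finset.range k, ((i : ℝ) + 1 + ρ) := by
        rw [pow_mul, show ((2 : ℝ) ^ 13) ^ k = ∏ i ∈ Finset.range k, (2 : ℝ) ^ 13 by simp,
          ← Finset.prod_mul_distrib]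
        apply Finset.prod_congr rfl
        intro i _
        rw [hρ]
        norm_num
        ring
      rw [h2]
      field_simp

end Pool.Agent.Helper46.P705
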